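import Mathlib

/-! Leaf Q3: the gap above the tangent. -/

set_option autoImplicit false

namespace UTQ

open Finset

/-- The first differences of a convex function are at most the last one. -/
theorem Q3_first {T : ℕ} {F : ℕ → ℤ} (hc : ∀ t, t + 2 ≤ T → 0 ≤ F (t + 2) - 2 * F (t + 1) + F t) :
    ∀ j, j + 1 ≤ T → F (T - j) - F (T - (j + 1)) ≤ F T - F (T - 1) := by
  intro j
  induction j with
  | zero =>
    intro _
    exact le_of_eq (by rw [Nat.sub_zero])
  | succ j ih =>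
    intro hj
    have h1 := ih (by omega)
    have h2 := hc (T - (j + 2)) (by omega)
    have h3 : T - (j + 2) + 2 = T - j := by omega
    have h4 : T - (j + 2) + 1 = T - (j + 1) := by omega
    rw [h3, h4] at h2
    show F (T - (j + 1)) - F (T - (j + 2)) ≤ _
    linarith

/-- The gap above the tangent at `T`. -/
theorem Q3_mono {T : ℕ} {F : ℕ → ℤ} (hc : ∀ t, t + 2 ≤ T → 0 ≤ F (t + 2) - 2 * F (t + 1) + F t) (i : ℕ) :
    ∀ j, i ≤ j → j ≤ T → F (T - i) - F T + i * (F T - F (T - 1)) ≤ F (T - j) - F T + j * (F T - F (T - 1)) := by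
  intro j hij
  induction j, hij using Nat.le_induction with
  | base => exact fun _ => le_rfl
  | succ j hij ih =>
    intro hj
    have h1 := ih (by omega)
    have h2 := Q3_first hc j hj
    push_cast
    linarith

theorem Q3_nonneg {T : ℕ} {F : ℕ → ℤ} (hc : ∀ t, t + 2 ≤ T → 0 ≤ F (t + 2) - 2 * F (t + 1) + F t) {j : ℕ} (hj : j ≤ T) :
    0 ≤ F (T - j) - F T + j * (F T - F (T - 1)) := by
  have h := Q3_mono hc 0 j (Nat.zero_le j) hj
  rw [Nat.sub_zero] at h
  simpa using h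

/-- The alternating sum of `l` times the binomial coefficients. -/
theorem Q3_alt {n : ℕ} (hn : 2 ≤ n) :
    ∑ l ∈ range (n + 1), (-1 : ℤ) ^ l * n.choose l = 0 ∧ ∑ l ∈ range (n + 1), (-1 : ℤ) ^ l * n.choose l * l = 0 := by
  refine ⟨Int.alternating_sum_range_choose_of_ne (by omega), ?_⟩
  obtain ⟨k, rfl⟩ : ∃ k, n = k + 1 := ⟨n - 1, by omega⟩
  rw [Finset.sum_range_succ']
  simp only [Nat.cast_zero, mul_zero, add_zero]
  have h1 : ∀ l ∈ range (k + 1), (-1 : ℤ) ^ (l + 1) * ((k + 1).choose (l + 1) : ℤ) * ((l + 1 : ℕ) : ℤ) =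
      -(k + 1) * ((-1 : ℤ) ^ l * (k.choose l : ℤ)) := by
    intro l _
    have h2 := Nat.add_one_mul_choose_eq k l
    have h3 : ((k : ℤ) + 1) * (k.choose l : ℤ) = ((k + 1).choose (l + 1) : ℤ) * ((l : ℤ) + 1) := by
      exact_mod_cast h2
    push_cast
    rw [pow_succ]
    linear_combination (-1 : ℤ) ^ l * h3
  rw [Finset.sum_congr rfl h1, ← Finset.mul_sum, Int.alternating_sum_range_choose_of_ne (by omega), mul_zero]

/-- **Q3.** A convex function whose `n`-th difference with step `s` at `T` is at least `s ^ n` lies above its tangent at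
`T` by at least `(s / 2) ^ n` at distance at least `n s`. -/
theorem Q3 {n s j T : ℕ} {F : ℕ → ℤ} (hn : 2 ≤ n) (hc : ∀ t, t + 2 ≤ T → 0 ≤ F (t + 2) - 2 * F (t + 1) + F t)
    (hs : (s : ℤ) ^ n ≤ ∑ l ∈ range (n + 1), (-1) ^ l * n.choose l * F (T - l * s)) (h1 : n * s ≤ j) (h2 : j ≤ T) :
    (s : ℤ) ^ n ≤ 2 ^ n * (F (T - j) - F T + j * (F T - F (T - 1))) := by
  obtain ⟨d, hd⟩ : ∃ d : ℤ, d = F T - F (T - 1) := ⟨_, rfl⟩
  obtain ⟨g, hg⟩ : ∃ g : ℕ → ℤ, g = fun i => F (T - i) - F T + i * d := ⟨_, rfl⟩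
  have hmono : ∀ i, i ≤ j → 0 ≤ g i ∧ g i ≤ g j := by
    intro i hi
    have h3 := Q3_nonneg hc (hi.trans h2)
    have h4 := Q3_mono hc i j hi h2
    rw [← hd] at h3 h4
    rw [hg]
    exact ⟨h3, h4⟩
  obtain ⟨ha, hb⟩ := Q3_alt hn
  have h3 : ∑ l ∈ range (n + 1), (-1 : ℤ) ^ l * n.choose l * F (T - l * s) =
      ∑ l ∈ range (n + 1), (-1 : ℤ) ^ l * n.choose l * g (l * s) := by
    have h4 : ∀ l ∈ range (n + 1), (-1 : ℤ) ^ l * n.choose l * g (l * s) =
        (-1 : ℤ) ^ l * n.choose l * F (T - l * s) - ((-1 : ℤ) ^ l * n.choose l) * F T +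
          ((-1 : ℤ) ^ l * n.choose l * l) * (s * d) := by
      intro l _
      rw [hg]
      push_cast
      ring
    rw [Finset.sum_congr rfl h4, Finset.sum_add_distrib, Finset.sum_sub_distrib, ← Finset.sum_mul, ← Finset.sum_mul,
      ha, hb, zero_mul, zero_mul, sub_zero, add_zero]
  have h5 : ∑ l ∈ range (n + 1), (-1 : ℤ) ^ l * n.choose l * g (l * s) ≤ ∑ l ∈ range (n + 1), (n.choose l : ℤ) * g j := by
    refine Finset.sum_le_sum fun l hl => ?_
    rw [mem_range] at hl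
    have h6 : l * s ≤ j := (Nat.mul_le_mul_right s (by omega : l ≤ n)).trans h1
    obtain ⟨h7, h8⟩ := hmono _ h6
    have h9 : (0 : ℤ) ≤ n.choose l := Int.natCast_nonneg _
    rcases neg_one_pow_eq_or ℤ l with h | h
    · rw [h, one_mul]
      exact mul_le_mul_of_nonneg_left h8 h9
    · rw [h]
      nlinarith [mul_nonneg h9 h7, mul_nonneg h9 (h7.trans h8)]
  have h6 : ∑ l ∈ range (n + 1), (n.choose l : ℤ) * g j = 2 ^ n * g j := by
    rw [← Finset.sum_mul]
    congr 1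
    exact_mod_cast Nat.sum_range_choose n
  rw [h3] at hs
  have h7 := hs.trans (h5.trans h6.le)
  rw [hg, hd] at h7
  exact h7

end UTQ
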