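import Pool.Agent.Lib.MP_17a322_ntTQ.Q2
import Pool.Agent.Lib.MP_17a322_ntTQ.Q3

/-!
The gap between the Hilbert function and its tangent in one direction.
-/

set_option autoImplicit false

namespace UTQ

open Finset

private theorem G_step {q : ℕ} {h : (Fin q → ℕ) → ℕ} (mono : ∀ M i, h M ≤ h (M + Pi.single i 1)) (A : Fin q → ℕ)
    (i : Fin q) (t : ℕ) : h A ≤ h (A + t • Pi.single i 1) := by
  induction t with
  | zero => rw [zero_smul, add_zero]
  | succ t ih =>
    rw [succ_nsmul, ← add_assoc]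
    exact ih.trans (mono _ i)

theorem G_mono {q : ℕ} {h : (Fin q → ℕ) → ℕ} (mono : ∀ M i, h M ≤ h (M + Pi.single i 1)) {A B : Fin q → ℕ}
    (hAB : A ≤ B) : h A ≤ h B := by
  classical
  have h1 : ∀ s : Finset (Fin q), h A ≤ h (A + ∑ i ∈ s, (B i - A i) • Pi.single i 1) := by
    intro s
    induction s using Finset.induction_on with
    | empty => rw [sum_empty, add_zero]
    | insert i s hi ih =>
      rw [sum_insert hi, add_comm ((B i - A i) • Pi.single i 1), ← add_assoc]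
      exact ih.trans (G_step mono _ i _)
  have h2 : A + ∑ i, (B i - A i) • Pi.single i 1 = B := by
    funext l
    rw [Pi.add_apply, Finset.sum_apply, sum_eq_single l]
    · rw [Pi.smul_apply, Pi.single_eq_same, smul_eq_mul, mul_one]
      have h3 : A l ≤ B l := hAB l
      omega
    · intro b _ hb
      rw [Pi.smul_apply, Pi.single_eq_of_ne (Ne.symm hb), smul_zero]
    · intro hl
      exact absurd (mem_univ l) hl
  have h3 := h1 univ
  rwa [h2] at h3

/-- **The gap.** -/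
theorem gap {q n : ℕ} (hn : 2 ≤ n) (h : (Fin q → ℕ) → ℕ)
    (mono : ∀ M i, h M ≤ h (M + Pi.single i 1))
    (lo : ∀ (M : Fin q → ℕ) (l : Fin q), (M l) ^ n ≤ n.factorial * h M)
    (C : ℝ) (up : ∀ t : ℕ, 1 ≤ t → (h fun _ => t : ℝ) ≤ C * (t : ℝ) ^ n)
    (D M₀ : ℕ) (poly : ∀ (i : Fin q) (M : Fin q → ℕ), (∀ l, M₀ ≤ M l) →
      (∀ t : ℕ, (fwdDiff 1)^[D] (fun t : ℕ => (h (M + t • Pi.single i 1) : ℤ)) t = 0) ∧
      2 * h (M + Pi.single i 1) ≤ h M + h (M + 2 • Pi.single i 1))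
    (N : Fin q → ℕ) (i : Fin q) (hN : ∀ l, M₀ ≤ N l) (hT : 1 + M₀ ≤ N i) (s j : ℕ) (hs : n * s ≤ j)
    (hj : j + M₀ ≤ N i) :
    (s : ℤ) ^ n ≤ 2 ^ n * ((h (N - Pi.single i j) : ℤ) - h N + j * ((h N : ℤ) - h (N - Pi.single i 1))) := by
  classical
  obtain ⟨T, hTT⟩ : ∃ T, T = N i - M₀ := ⟨_, rfl⟩
  obtain ⟨M, hM⟩ : ∃ M : Fin q → ℕ, M = Function.update N i M₀ := ⟨_, rfl⟩
  have hMl : ∀ l, M₀ ≤ M l := by
    intro l
    rw [hM]
    by_cases hl : l = i
    · subst hl
      rw [Function.update_self]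
    · rw [Function.update_of_ne hl]
      exact hN l
  have hMt : ∀ t : ℕ, (M + t • Pi.single i 1 : Fin q → ℕ) i = M₀ + t := by
    intro t
    rw [Pi.add_apply, Pi.smul_apply, Pi.single_eq_same, smul_eq_mul, mul_one, hM, Function.update_self]
  have hMo : ∀ (t : ℕ) (l : Fin q), l ≠ i → (M + t • Pi.single i 1 : Fin q → ℕ) l = N l := by
    intro t l hl
    rw [Pi.add_apply, Pi.smul_apply, Pi.single_eq_of_ne hl, smul_zero, add_zero, hM, Function.update_of_ne hl]
  have hNj : ∀ j, j ≤ T → M + (T - j) • Pi.single i 1 = N - Pi.single i j := by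
    intro j hj
    funext l
    by_cases hl : l = i
    · subst hl
      rw [hMt, Pi.sub_apply, Pi.single_eq_same]
      omega
    · rw [hMo _ _ hl, Pi.sub_apply, Pi.single_eq_of_ne hl, Nat.sub_zero]
  have hNT : M + T • Pi.single i 1 = N := by
    have h1 := hNj 0 (Nat.zero_le _)
    rw [Nat.sub_zero] at h1
    rw [h1, Pi.single_zero]
    funext l
    simp
  obtain ⟨f, hf⟩ : ∃ f : ℕ → ℤ, f = fun t : ℕ => (h (M + t • Pi.single i 1) : ℤ) := ⟨_, rfl⟩
  have hft : ∀ t : ℕ, f t = (h (M + t • Pi.single i 1) : ℤ) := fun t => by rw [hf]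
  have h0 : ∀ t, (fwdDiff 1)^[D] f t = 0 := by
    rw [hf]
    exact (poly i M hMl).1
  have h1 : ∀ t : ℕ, (t : ℤ) ^ n ≤ n.factorial * f t := by
    intro t
    have h2 := lo (M + t • Pi.single i 1) i
    rw [hMt] at h2
    have h3 : t ^ n ≤ (M₀ + t) ^ n := Nat.pow_le_pow_left (Nat.le_add_left _ _) n
    rw [hft]
    exact_mod_cast h3.trans h2
  obtain ⟨Kn, hKn⟩ : ∃ Kn : ℕ, ∀ l, M l ≤ Kn := ⟨∑ l, M l, fun l => single_le_sum (f := M) (fun _ _ => Nat.zero_le _) (mem_univ l)⟩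
  obtain ⟨E, hE⟩ : ∃ E : ℕ, C * ((Kn : ℝ) + 1) ^ n ≤ E := ⟨_, Nat.le_ceil _⟩
  have h2 : ∀ t : ℕ, f t ≤ E * ((t : ℤ) + 1) ^ n := by
    intro t
    have h3 : h (M + t • Pi.single i 1) ≤ h fun _ => (Kn + 1) * (t + 1) := by
      refine G_mono mono fun l => ?_
      have h4 := hKn l
      have h5 : (M + t • Pi.single i 1 : Fin q → ℕ) l ≤ Kn + t := by
        rw [Pi.add_apply, Pi.smul_apply, smul_eq_mul]
        have h6 : (Pi.single i 1 : Fin q → ℕ) l ≤ 1 := by
          by_cases hl : l = i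
          · subst hl
            rw [Pi.single_eq_same]
          · rw [Pi.single_eq_of_ne hl]
            exact Nat.zero_le _
        nlinarith
      refine h5.trans ?_
      nlinarith
    have h4 := up ((Kn + 1) * (t + 1)) (Nat.mul_pos (Nat.succ_pos _) (Nat.succ_pos _))
    have h5 : ((h (M + t • Pi.single i 1) : ℕ) : ℝ) ≤ (E : ℝ) * ((t : ℝ) + 1) ^ n := by
      have h6 : ((h (M + t • Pi.single i 1) : ℕ) : ℝ) ≤ ((h fun _ => (Kn + 1) * (t + 1) : ℕ) : ℝ) := by
        exact_mod_cast h3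
      refine h6.trans (h4.trans ?_)
      push_cast
      rw [mul_pow, ← mul_assoc]
      exact mul_le_mul_of_nonneg_right hE (by positivity)
    rw [hft]
    exact_mod_cast h5
  have hsT : n * s ≤ T := by omega
  have h3 := Q2 h0 h1 h2 s (T - n * s)
  have h4 : ∑ l ∈ range (n + 1), (-1 : ℤ) ^ (n - l) * n.choose l * f (T - n * s + l * s) =
      ∑ l ∈ range (n + 1), (-1 : ℤ) ^ l * n.choose l * f (T - l * s) := by
    rw [← sum_range_reflect]
    refine sum_congr rfl fun l hl => ?_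
    have hl' : l ≤ n := Nat.lt_succ_iff.1 (mem_range.1 hl)
    have e1 : n + 1 - 1 - l = n - l := by omega
    have e2 : n - (n - l) = l := by omega
    have e3 : T - n * s + (n - l) * s = T - l * s := by
      have e4 : n * s = (n - l) * s + l * s := by
        rw [← add_mul]
        congr 1
        omega
      omega
    rw [e1, e2, e3, Nat.choose_symm hl']
  rw [h4] at h3
  have h5 := Q3 (F := f) hn (fun t ht => by
    have h6 := (poly i (M + t • Pi.single i 1) (fun l => by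
      rw [Pi.add_apply]
      exact (hMl l).trans (Nat.le_add_right _ _))).2
    rw [add_assoc, add_assoc, ← succ_nsmul, ← add_smul] at h6
    rw [hf]
    simp only
    have h7 : (2 : ℤ) * (h (M + (t + 1) • Pi.single i 1) : ℤ) ≤ (h (M + t • Pi.single i 1) : ℤ) + (h (M + (t + 2) • Pi.single i 1) : ℤ) := by
      exact_mod_cast h6
    linarith) h3 hs (by omega : j ≤ T)
  rw [hf] at h5
  simp only at h5
  rwa [hNj j (by omega), hNT, hNj 1 (by omega)] at h5

end UTQ
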