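import Pool.Agent.Lib.MP_17a322_ntTA.FL
import Pool.Agent.Lib.MP_17a322_ntTB.H1
import Pool.Agent.Lib.MP_17a322_ntTC.CDefs

/-!
Leaf K3+ of T3+: the chains of T3 together with the multiples of `s ^ j`.

PROOF. `V = Vm (Ik h) M`, `V_i = Vm (Ik h) (M - e_i)`, `u = X (i, lam i)`, `s = X (i, 0)`: `G lam i j = FLF V V_i s u j ⊔ {v ∈ V : s ^ j ∣ v}`.
`r ≤ finrank (G lam i j) + j * δ i` as in K3 of ntTC; `hf (Ik h) (M - j e_i) ≤ finrank (G lam i j)` for `j ≤ M i` since the
multiplication by `s ^ j` is injective (the ring is a domain) and maps `Vm (Ik h) (M - j e_i)` to `V`.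
-/

set_option autoImplicit false

universe u

namespace UTQ

open MvPolynomial UTA UTC

/-- A coordinate of the block `i` has the multidegree `e_i`. -/
private theorem K3p_X {k : Type u} [Field k] {q m : ℕ} (i : Fin q) (l : Fin (m + 1)) :
    (X (i, l) : MvPolynomial (Fin q × Fin (m + 1)) k) ∈ MH k m (Pi.single i 1) := by
  classical
  show ∀ μ ∈ (X (i, l) : MvPolynomial (Fin q × Fin (m + 1)) k).support, ∀ j, ∑ t, μ (j, t) = (Pi.single i 1 : Fin q → ℕ) j
  intro μ hμ j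
  rw [support_X, Finset.mem_singleton] at hμ
  subst hμ
  by_cases hj : j = i
  · subst hj
    rw [Pi.single_eq_same, Finset.sum_eq_single l]
    · rw [Finsupp.single_eq_same]
    · intro b _ hb
      rw [Finsupp.single_apply, if_neg]
      intro h
      exact hb (Prod.ext_iff.1 h).2.symm
    · intro h
      exact absurd (Finset.mem_univ _) h
  · rw [Pi.single_eq_of_ne hj]
    refine Finset.sum_eq_zero fun b _ => ?_
    rw [Finsupp.single_apply, if_neg]
    intro h
    exact hj (Prod.ext_iff.1 h).1.symm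

/-- Multiplication by a coordinate of the block `i`. -/
private theorem K3p_mul {k : Type u} [Field k] {q m : ℕ} (I : Ideal (MvPolynomial (Fin q × Fin (m + 1)) k))
    {M : Fin q → ℕ} (i : Fin q) (hM : 1 ≤ M i) (l : Fin (m + 1)) :
    ∀ x ∈ Vm I (M - Pi.single i 1), Ideal.Quotient.mk I (X (i, l)) * x ∈ Vm I M := by
  rintro x hx
  obtain ⟨f, hf, rfl⟩ := Submodule.mem_map.1 hx
  refine Submodule.mem_map.2 ⟨X (i, l) * f, ?_, ?_⟩
  · have h := B3_mul (K3p_X (k := k) i l) hf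
    have h2 : Pi.single i 1 + (M - Pi.single i 1) = M := by
      funext j
      by_cases hj : j = i
      · subst hj
        show (Pi.single j 1 : Fin q → ℕ) j + (M j - (Pi.single j 1 : Fin q → ℕ) j) = M j
        rw [Pi.single_eq_same]
        omega
      · show (Pi.single i 1 : Fin q → ℕ) j + (M j - (Pi.single i 1 : Fin q → ℕ) j) = M j
        rw [Pi.single_eq_of_ne hj]
        omega
    rwa [h2] at h
  · exact map_mul (Ideal.Quotient.mk I) _ _

/-- A power of a coordinate of the block `i` has the multidegree `j e_i`. -/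
private theorem K3p_pow {k : Type u} [Field k] {q m : ℕ} (i : Fin q) (l : Fin (m + 1)) (j : ℕ) :
    (X (i, l) ^ j : MvPolynomial (Fin q × Fin (m + 1)) k) ∈ MH k m (Pi.single i j) := by
  classical
  induction j with
  | zero =>
    show ∀ μ ∈ (X (i, l) ^ 0 : MvPolynomial (Fin q × Fin (m + 1)) k).support, ∀ j, ∑ t, μ (j, t) = (Pi.single i 0 : Fin q → ℕ) j
    intro μ hμ j
    rw [pow_zero, ← C_1, ← monomial_zero', support_monomial] at hμ
    split_ifs at hμ with h1
    · exact absurd hμ (Finset.notMem_empty _)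
    · rw [Finset.mem_singleton] at hμ
      subst hμ
      rw [Pi.single_zero]
      exact Finset.sum_eq_zero fun t _ => rfl
  | succ j ih =>
    have h1 := B3_mul ih (K3p_X (k := k) i l)
    rw [← pow_succ, ← Pi.single_add] at h1
    exact h1

/-- Multiplication by a power of a coordinate of the block `i`. -/
private theorem K3p_mulp {k : Type u} [Field k] {q m : ℕ} (I : Ideal (MvPolynomial (Fin q × Fin (m + 1)) k))
    {M : Fin q → ℕ} (i : Fin q) {j : ℕ} (hM : j ≤ M i) :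
    ∀ x ∈ Vm I (M - Pi.single i j), sc I i ^ j * x ∈ Vm I M := by
  rintro x hx
  obtain ⟨f, hf, rfl⟩ := Submodule.mem_map.1 hx
  refine Submodule.mem_map.2 ⟨X (i, 0) ^ j * f, ?_, ?_⟩
  · have h := B3_mul (K3p_pow (k := k) i 0 j) hf
    have h2 : Pi.single i j + (M - Pi.single i j) = M := by
      funext a
      by_cases ha : a = i
      · subst ha
        show (Pi.single a j : Fin q → ℕ) a + (M a - (Pi.single a j : Fin q → ℕ) a) = M a
        rw [Pi.single_eq_same]
        omega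
      · show (Pi.single i j : Fin q → ℕ) a + (M a - (Pi.single i j : Fin q → ℕ) a) = M a
        rw [Pi.single_eq_of_ne ha]
        omega
    rwa [h2] at h
  · show Ideal.Quotient.mk I (X (i, 0) ^ j * f) = sc I i ^ j * Ideal.Quotient.mk I f
    rw [map_mul, map_pow]

/-- The multiples of `s ^ j`. -/
private def K3p_S {k R : Type*} [Field k] [CommRing R] [Algebra k R] (V : Submodule k R) (s : R) (j : ℕ) : Submodule k V where
  carrier := {f | s ^ j ∣ (f : R)}
  zero_mem' := dvd_zero _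
  add_mem' := fun ha hb => dvd_add ha hb
  smul_mem' := by
    rintro c a ⟨y, hy⟩
    refine ⟨c • y, ?_⟩
    show c • (a : R) = _
    rw [hy, mul_smul_comm]

theorem K3p_chain {k : Type u} [Field k] {q m κ : ℕ} {h : Fin κ → MvPolynomial (Fin q × Fin (m + 1)) k}
    (hp : (Ik h).IsPrime) (h0 : ∀ i, X (i, 0) ∉ Ik h) (M δ : Fin q → ℕ) (J : ℕ) (hM : ∀ i, 1 ≤ M i)
    (hδ : ∀ i, hf (Ik h) M ≤ hf (Ik h) (M - Pi.single i 1) + δ i) :
    ∃ W : Fin q → ℕ, Nonempty (ChainQ h Finset.univ M W) ∧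
      ∀ i, ∃ f : ℕ → ℕ, (∀ j, hf (Ik h) M ≤ f j + j * δ i) ∧
        (∀ j, j ≤ M i → hf (Ik h) (M - Pi.single i j) ≤ f j) ∧ W i = ∑ j ∈ Finset.Icc 1 J, f j := by
  classical
  have hdom : IsDomain (MvPolynomial (Fin q × Fin (m + 1)) k ⧸ Ik h) := Ideal.Quotient.isDomain (Ik h)
  have hfd : ∀ N : Fin q → ℕ, FiniteDimensional k (Vm (Ik h) N) := by
    intro N
    have := B3_fd (k := k) (q := q) (m := m) N
    exact inferInstance
  have hs : ∀ i, sc (Ik h) i ≠ 0 := fun i h1 => h0 i (Ideal.Quotient.eq_zero_iff_mem.1 h1)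
  let G0 : (Fin q → Fin (m + 1)) → Fin q → ℕ → Submodule k (Vm (Ik h) M) := fun lam i j =>
    FLF (Vm (Ik h) M) (Vm (Ik h) (M - Pi.single i 1)) (sc (Ik h) i) (Ideal.Quotient.mk (Ik h) (X (i, lam i))) j
  let G : (Fin q → Fin (m + 1)) → Fin q → ℕ → Submodule k (Vm (Ik h) M) := fun lam i j =>
    G0 lam i j ⊔ K3p_S (Vm (Ik h) M) (sc (Ik h) i) j
  have hdim0 : ∀ lam i j, hf (Ik h) M ≤ Module.finrank k (G0 lam i j) + j * δ i := by
    intro lam i j
    induction j with
    | zero =>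
      show Module.finrank k (Vm (Ik h) M) ≤ Module.finrank k (⊤ : Submodule k (Vm (Ik h) M)) + 0 * δ i
      rw [finrank_top]
      omega
    | succ j ih =>
      have h5 := FLF_dim (Vm (Ik h) M) (Vm (Ik h) (M - Pi.single i 1)) (sc (Ik h) i)
        (Ideal.Quotient.mk (Ik h) (X (i, lam i))) (hs i) (K3p_mul (Ik h) i (hM i) 0) (K3p_mul (Ik h) i (hM i) (lam i))
        (d := δ i) (hδ i) j
      have h6 : (j + 1) * δ i = j * δ i + δ i := by ring
      have h7 : Module.finrank k (G0 lam i j) ≤ Module.finrank k (G0 lam i (j + 1)) + δ i := h5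
      omega
  have hdim : ∀ lam i j, hf (Ik h) M ≤ Module.finrank k (G lam i j) + j * δ i := fun lam i j =>
    (hdim0 lam i j).trans (Nat.add_le_add_right (Submodule.finrank_mono le_sup_left) _)
  have hdim2 : ∀ lam i j, j ≤ M i → hf (Ik h) (M - Pi.single i j) ≤ Module.finrank k (G lam i j) := by
    intro lam i j hj
    obtain ⟨φ, hφ⟩ : ∃ φ : Vm (Ik h) (M - Pi.single i j) →ₗ[k] K3p_S (Vm (Ik h) M) (sc (Ik h) i) j,
        ∀ x, (((φ x : K3p_S (Vm (Ik h) M) (sc (Ik h) i) j) : Vm (Ik h) M) : MvPolynomial (Fin q × Fin (m + 1)) k ⧸ Ik h) =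
          sc (Ik h) i ^ j * x :=
      ⟨{ toFun := fun x => ⟨⟨sc (Ik h) i ^ j * x, K3p_mulp (Ik h) i hj x x.2⟩, ⟨x, rfl⟩⟩
         map_add' := fun x y => Subtype.ext (Subtype.ext (mul_add _ (x : MvPolynomial (Fin q × Fin (m + 1)) k ⧸ Ik h) y))
         map_smul' := fun c x => Subtype.ext (Subtype.ext (mul_smul_comm c _ (x : MvPolynomial (Fin q × Fin (m + 1)) k ⧸ Ik h))) },
        fun _ => rfl⟩
    have hφi : Function.Injective φ := by
      intro x y hxy
      have h1 : sc (Ik h) i ^ j * (x : MvPolynomial (Fin q × Fin (m + 1)) k ⧸ Ik h) = sc (Ik h) i ^ j * y := by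
        rw [← hφ, ← hφ, hxy]
      exact Subtype.ext (mul_left_cancel₀ (pow_ne_zero _ (hs i)) h1)
    exact (LinearMap.finrank_le_finrank_of_injective hφi).trans (Submodule.finrank_mono le_sup_right)
  have hmin : ∀ i, ∃ lam0 : Fin q → Fin (m + 1), ∀ lam, ∑ j ∈ Finset.Icc 1 J, Module.finrank k (G lam0 i j) ≤
      ∑ j ∈ Finset.Icc 1 J, Module.finrank k (G lam i j) := fun i =>
    Finite.exists_min fun lam => ∑ j ∈ Finset.Icc 1 J, Module.finrank k (G lam i j)
  choose lam0 hlam0 using hmin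
  refine ⟨fun i => ∑ j ∈ Finset.Icc 1 J, Module.finrank k (G (lam0 i) i j), ⟨?_⟩, fun i =>
    ⟨fun j => Module.finrank k (G (lam0 i) i j), fun j => hdim (lam0 i) i j,
      fun j hj => hdim2 (lam0 i) i j hj, rfl⟩⟩
  refine
    { J := J
      G := G
      G_zero := fun lam i => top_sup_eq _
      G_dvd := ?_
      W_le := fun lam i _ => hlam0 i lam }
  intro lam i _ j f hf
  obtain ⟨f1, hf1, f2, hf2, rfl⟩ := Submodule.mem_sup.1 hf
  obtain ⟨y, -, hy⟩ := FLF_le (Vm (Ik h) M) (Vm (Ik h) (M - Pi.single i 1)) (sc (Ik h) i)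
    (Ideal.Quotient.mk (Ik h) (X (i, lam i))) (K3p_mul (Ik h) i (hM i) (lam i)) j hf1
  have h1 : gc (Ik h) lam = Ideal.Quotient.mk (Ik h) (X (i, lam i)) *
      Ideal.Quotient.mk (Ik h) (∏ a ∈ Finset.univ.erase i, X (a, lam a)) := by
    rw [← map_mul, Finset.mul_prod_erase Finset.univ (fun a => (X (a, lam a) : MvPolynomial (Fin q × Fin (m + 1)) k)) (Finset.mem_univ i)]
  have h2 : sc (Ik h) i ^ j ∣ gc (Ik h) lam ^ j * (f1 : MvPolynomial (Fin q × Fin (m + 1)) k ⧸ Ik h) := by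
    refine ⟨(Ideal.Quotient.mk (Ik h) (∏ a ∈ Finset.univ.erase i, X (a, lam a))) ^ j * y, ?_⟩
    rw [h1, mul_pow]
    calc (Ideal.Quotient.mk (Ik h) (X (i, lam i))) ^ j * (Ideal.Quotient.mk (Ik h) (∏ a ∈ Finset.univ.erase i, X (a, lam a))) ^ j * (f1 : MvPolynomial (Fin q × Fin (m + 1)) k ⧸ Ik h)
        = (Ideal.Quotient.mk (Ik h) (∏ a ∈ Finset.univ.erase i, X (a, lam a))) ^ j * ((Ideal.Quotient.mk (Ik h) (X (i, lam i))) ^ j * (f1 : MvPolynomial (Fin q × Fin (m + 1)) k ⧸ Ik h)) := by ring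
      _ = (Ideal.Quotient.mk (Ik h) (∏ a ∈ Finset.univ.erase i, X (a, lam a))) ^ j * (sc (Ik h) i ^ j * y) := by rw [hy]
      _ = sc (Ik h) i ^ j * ((Ideal.Quotient.mk (Ik h) (∏ a ∈ Finset.univ.erase i, X (a, lam a))) ^ j * y) := by ring
  have h3 : sc (Ik h) i ^ j ∣ gc (Ik h) lam ^ j * (f2 : MvPolynomial (Fin q × Fin (m + 1)) k ⧸ Ik h) :=
    dvd_mul_of_dvd_right hf2 _
  refine ⟨j, ?_⟩
  show sc (Ik h) i ^ j ∣ gc (Ik h) lam ^ j * ((f1 : MvPolynomial (Fin q × Fin (m + 1)) k ⧸ Ik h) + (f2 : MvPolynomial (Fin q × Fin (m + 1)) k ⧸ Ik h))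
  rw [mul_add]
  exact dvd_add h2 h3

end UTQ
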