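import Mathlib

/-!
The gain in the sum of the dimensions.
-/

set_option autoImplicit false

namespace UTQ

open Finset

theorem P_gain {n : ℕ} (hn : 0 < n) (M₀ N r δ J : ℕ) (f : ℕ → ℕ) (hN8 : 8 * (M₀ + 1) ≤ N) (hN4 : 4 * n ≤ N)
    (hJ : N ≤ J) (hδ : ∀ j ≤ N, j * δ ≤ r) (hf1 : ∀ j, r ≤ f j + j * δ)
    (hf2 : ∀ s j : ℕ, n * s ≤ j → j + M₀ ≤ N → (s : ℤ) ^ n ≤ 2 ^ n * ((f j : ℤ) - r + j * δ)) :
    ∑ j ∈ Icc 1 J, ((r - j * δ : ℕ) : ℝ) + (N : ℝ) / 8 * ((N : ℝ) / (8 * n)) ^ n ≤ ∑ j ∈ Icc 1 J, (f j : ℝ) := by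
  classical
  obtain ⟨L, hL⟩ : ∃ L, L = N / 4 := ⟨_, rfl⟩
  obtain ⟨s, hs⟩ : ∃ s, s = N / (2 * n) := ⟨_, rfl⟩
  have hns : 2 * (n * s) ≤ N := by
    rw [hs, ← mul_assoc]
    exact Nat.mul_div_le N (2 * n)
  have hL1 : 4 * L ≤ N := by
    rw [hL]
    exact Nat.mul_div_le N 4
  have hL2 : N < 4 * L + 4 := by omega
  obtain ⟨W, hW⟩ : ∃ W : Finset ℕ, W = Ioc (N - M₀ - L) (N - M₀) := ⟨_, rfl⟩
  have hWc : W.card = L := by
    rw [hW, Nat.card_Ioc]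
    omega
  have hWs : W ⊆ Icc 1 J := by
    intro j hj
    rw [hW, mem_Ioc] at hj
    rw [mem_Icc]
    omega
  obtain ⟨G, hG⟩ : ∃ G : ℝ, G = (s : ℝ) ^ n / 2 ^ n := ⟨_, rfl⟩
  have h2n : (0 : ℝ) < 2 ^ n := by positivity
  have hG0 : 0 ≤ G := by rw [hG]; positivity
  have key : ∀ j ∈ Icc 1 J, ((r - j * δ : ℕ) : ℝ) + (if j ∈ W then G else 0) ≤ f j := by
    intro j _
    by_cases hj : j ∈ W
    · rw [if_pos hj]
      rw [hW, mem_Ioc] at hj
      have h1 := hf2 s j (by omega) (by omega)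
      have h2 : ((s : ℝ)) ^ n ≤ 2 ^ n * ((f j : ℝ) - r + j * δ) := by exact_mod_cast h1
      have h3 : j * δ ≤ r := hδ j (by omega)
      have h4 : ((r - j * δ : ℕ) : ℝ) = (r : ℝ) - j * δ := by
        rw [Nat.cast_sub h3, Nat.cast_mul]
      have h5 : G ≤ (f j : ℝ) - r + j * δ := by
        rw [hG, div_le_iff₀ h2n, mul_comm _ ((2 : ℝ) ^ n)]
        exact h2
      rw [h4]
      linarith
    · rw [if_neg hj, add_zero]
      have h1 := hf1 j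
      exact_mod_cast (by omega : r - j * δ ≤ f j)
  have h1 := sum_le_sum key
  rw [sum_add_distrib] at h1
  have h2 : ∑ j ∈ Icc 1 J, (if j ∈ W then G else 0) = L * G := by
    rw [← sum_filter, sum_const, nsmul_eq_mul]
    congr 2
    rw [filter_mem_eq_inter, inter_eq_right.2 hWs, hWc]
  rw [h2] at h1
  have hnR : (0 : ℝ) < n := by exact_mod_cast hn
  have h3 : (N : ℝ) / 8 ≤ L := by
    have h4 : (N : ℝ) ≤ 4 * L + 4 := by exact_mod_cast hL2.le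
    have h5 : (8 : ℝ) ≤ N := by
      have : 8 ≤ N := by omega
      exact_mod_cast this
    linarith
  have h4 : ((N : ℝ) / (8 * n)) ^ n ≤ G := by
    rw [hG, ← div_pow]
    refine pow_le_pow_left₀ (by positivity) ?_ n
    have h5 : N < (s + 1) * (2 * n) := by
      rw [hs]
      rw [mul_comm]
      exact Nat.lt_mul_div_succ N (by omega)
    have h6 : (N : ℝ) ≤ (s + 1) * (2 * n) := by exact_mod_cast h5.le
    have h7 : (4 : ℝ) * n ≤ N := by exact_mod_cast hN4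
    rw [div_le_div_iff₀ (by positivity) (by norm_num)]
    nlinarith
  have h5 : (N : ℝ) / 8 * ((N : ℝ) / (8 * n)) ^ n ≤ L * G := mul_le_mul h3 h4 (by positivity) (by positivity)
  linarith

end UTQ
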