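import Pool.Agent.Lib.MP_17a322_ntTA.B3

/-!
The Hilbert functions of an ideal, of its sum with a variable and of the colon ideal.
-/

set_option autoImplicit false

universe u

namespace UTQ

open MvPolynomial UTA

variable {k : Type u} [Field k] {q m : ℕ}

/-- The multidegrees of the variables. -/
def wt (q m : ℕ) : Fin q × Fin (m + 1) → (Fin q → ℕ) := fun z => Pi.single z.1 1

theorem wt_weight (μ : Fin q × Fin (m + 1) →₀ ℕ) : Finsupp.weight (wt q m) μ = fun i => ∑ l, μ (i, l) := by
  funext i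
  rw [Finsupp.weight_apply, Finsupp.sum_fintype μ (fun z c => c • wt q m z) (fun z => zero_smul ℕ (wt q m z)),
    Finset.sum_apply, Fintype.sum_prod_type, Finset.sum_eq_single i]
  · refine Finset.sum_congr rfl fun l _ => ?_
    simp [wt]
  · intro b _ hb
    refine Finset.sum_eq_zero fun l _ => ?_
    simp [wt, Ne.symm hb]
  · intro h
    exact absurd (Finset.mem_univ i) h

theorem mem_MH {M : Fin q → ℕ} {f : MvPolynomial (Fin q × Fin (m + 1)) k} :
    f ∈ MH k m M ↔ IsWeightedHomogeneous (wt q m) f M := by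
  constructor
  · intro h d hd
    rw [wt_weight]
    funext i
    exact h d (mem_support_iff.2 hd) i
  · intro h μ hμ i
    have h1 := h (mem_support_iff.1 hμ)
    rw [wt_weight] at h1
    exact congrFun h1 i

/-- The component of multidegree `M`. -/
noncomputable def cmp (M : Fin q → ℕ) : MvPolynomial (Fin q × Fin (m + 1)) k →ₗ[k]
    MvPolynomial (Fin q × Fin (m + 1)) k := weightedHomogeneousComponent (wt q m) M

theorem cmp_mem (M : Fin q → ℕ) (f : MvPolynomial (Fin q × Fin (m + 1)) k) : cmp M f ∈ MH k m M :=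
  mem_MH.2 (weightedHomogeneousComponent_isWeightedHomogeneous M f)

theorem cmp_self {M : Fin q → ℕ} {f : MvPolynomial (Fin q × Fin (m + 1)) k} (hf : f ∈ MH k m M) :
    cmp M f = f := (mem_MH.1 hf).weightedHomogeneousComponent_same

theorem cmp_X_mul (M : Fin q → ℕ) (z : Fin q × Fin (m + 1)) (f : MvPolynomial (Fin q × Fin (m + 1)) k) :
    cmp (M + Pi.single z.1 1) (X z * f) = X z * cmp M f := by
  classical
  ext d
  unfold cmp
  rw [coeff_weightedHomogeneousComponent, coeff_X_mul', coeff_X_mul', coeff_weightedHomogeneousComponent]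
  by_cases hz : z ∈ d.support
  · rw [if_pos hz, if_pos hz]
    have h1 : Finsupp.weight (wt q m) d = Finsupp.weight (wt q m) (d - Finsupp.single z 1) + Pi.single z.1 1 := by
      have h2 : d = (d - Finsupp.single z 1) + Finsupp.single z 1 := by
        rw [tsub_add_cancel_of_le]
        rw [Finsupp.single_le_iff]
        exact Nat.one_le_iff_ne_zero.2 (Finsupp.mem_support_iff.1 hz)
      conv_lhs => rw [h2]
      rw [map_add, Finsupp.weight_single, one_smul]
      rfl
    rw [h1]
    by_cases h3 : Finsupp.weight (wt q m) (d - Finsupp.single z 1) = M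
    · rw [if_pos (by rw [h3]), if_pos h3]
    · rw [if_neg (fun h => h3 (add_right_cancel h)), if_neg h3]
  · rw [if_neg hz, if_neg hz, ite_self]

/-- The ideal is multihomogeneous. -/
def HomI (J : Ideal (MvPolynomial (Fin q × Fin (m + 1)) k)) : Prop := ∀ f ∈ J, ∀ M, cmp M f ∈ J

/-- The colon ideal of a variable. -/
theorem mem_cl {J : Ideal (MvPolynomial (Fin q × Fin (m + 1)) k)} {z : Fin q × Fin (m + 1)}
    {f : MvPolynomial (Fin q × Fin (m + 1)) k} :
    f ∈ Submodule.colon J {(X z : MvPolynomial (Fin q × Fin (m + 1)) k)} ↔ X z * f ∈ J := by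
  rw [Submodule.mem_colon_singleton, smul_eq_mul, mul_comm]

theorem HomI.colon {J : Ideal (MvPolynomial (Fin q × Fin (m + 1)) k)} (hJ : HomI J) (z : Fin q × Fin (m + 1)) :
    HomI (Submodule.colon J {(X z : MvPolynomial (Fin q × Fin (m + 1)) k)}) := by
  intro f hf M
  rw [mem_cl] at hf ⊢
  rw [← cmp_X_mul]
  exact hJ _ hf _

theorem HomI.sup {I J : Ideal (MvPolynomial (Fin q × Fin (m + 1)) k)} (hI : HomI I) (hJ : HomI J) :
    HomI (I ⊔ J) := by
  intro f hf M
  obtain ⟨a, ha, b, hb, rfl⟩ := Submodule.mem_sup.1 hf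
  rw [map_add]
  exact Submodule.add_mem_sup (hI a ha M) (hJ b hb M)

theorem cmp_mul_mem {M d : Fin q → ℕ} {g : MvPolynomial (Fin q × Fin (m + 1)) k} (hg : g ∈ MH k m d)
    (f : MvPolynomial (Fin q × Fin (m + 1)) k) : ∃ c, cmp M (f * g) = c * g := by
  classical
  let _ : GradedAlgebra (weightedHomogeneousSubmodule k (wt q m)) := weightedGradedAlgebra k (wt q m)
  by_cases h : d ≤ M
  · obtain ⟨M', rfl⟩ : ∃ M', M = M' + d := ⟨M - d, (tsub_add_cancel_of_le h).symm⟩
    refine ⟨cmp M' f, ?_⟩
    have h1 := DirectSum.coe_decompose_mul_add_of_right_mem (weightedHomogeneousSubmodule k (wt q m)) (i := M') (a := f)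
      (mem_MH.1 hg)
    have h2 := weightedDecomposition.decompose'_apply (R := k) (w := wt q m) (φ := f * g) (m := M' + d)
    have h3 := weightedDecomposition.decompose'_apply (R := k) (w := wt q m) (φ := f) (m := M')
    unfold cmp
    rw [← h2, ← h3]
    exact h1
  · refine ⟨0, ?_⟩
    have h1 := DirectSum.coe_decompose_mul_of_right_mem_of_not_le (weightedHomogeneousSubmodule k (wt q m)) (a := f)
      (mem_MH.1 hg) h
    have h2 := weightedDecomposition.decompose'_apply (R := k) (w := wt q m) (φ := f * g) (m := M)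
    unfold cmp
    rw [zero_mul, ← h2]
    exact h1

theorem homI_span {S : Set (MvPolynomial (Fin q × Fin (m + 1)) k)} (hS : ∀ g ∈ S, ∃ d, g ∈ MH k m d) :
    HomI (Ideal.span S) := by
  intro f hf M
  induction hf using Submodule.span_induction with
  | mem g hg =>
    obtain ⟨d, hd⟩ := hS g hg
    obtain ⟨c, hc⟩ := cmp_mul_mem (M := M) hd 1
    rw [one_mul] at hc
    rw [hc]
    exact Ideal.mul_mem_left _ _ (Ideal.subset_span hg)
  | zero => rw [map_zero]; exact Ideal.zero_mem _
  | add a b _ _ ha hb => rw [map_add]; exact Ideal.add_mem _ ha hb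
  | smul a b hb' _ =>
    -- write `b` as a combination of the generators
    have h1 : ∀ b ∈ Ideal.span S, ∀ a, cmp M (a * b) ∈ Ideal.span S := by
      intro b hb
      induction hb using Submodule.span_induction with
      | mem g hg =>
        intro a
        obtain ⟨d, hd⟩ := hS g hg
        obtain ⟨c, hc⟩ := cmp_mul_mem (M := M) hd a
        rw [hc]
        exact Ideal.mul_mem_left _ _ (Ideal.subset_span hg)
      | zero => intro a; rw [mul_zero, map_zero]; exact Ideal.zero_mem _
      | add x y _ _ hx hy => intro a; rw [mul_add, map_add]; exact Ideal.add_mem _ (hx a) (hy a)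
      | smul c x _ hx => intro a; rw [smul_eq_mul, ← mul_assoc]; exact hx _
    exact h1 b hb' a

theorem X_mem_MH (z : Fin q × Fin (m + 1)) :
    (X z : MvPolynomial (Fin q × Fin (m + 1)) k) ∈ MH k m (Pi.single z.1 1) :=
  mem_MH.2 (isWeightedHomogeneous_X k (wt q m) z)

theorem homI_X (z : Fin q × Fin (m + 1)) :
    HomI (Ideal.span {(X z : MvPolynomial (Fin q × Fin (m + 1)) k)}) := by
  refine homI_span ?_
  rintro _ rfl
  exact ⟨_, X_mem_MH z⟩

/-- The part of multidegree `M` of the ideal. -/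
noncomputable def JM (J : Ideal (MvPolynomial (Fin q × Fin (m + 1)) k)) (M : Fin q → ℕ) :
    Submodule k (MvPolynomial (Fin q × Fin (m + 1)) k) := MH k m M ⊓ J.restrictScalars k

theorem hf_add (J : Ideal (MvPolynomial (Fin q × Fin (m + 1)) k)) (M : Fin q → ℕ) :
    hf J M + Module.finrank k (JM J M) = Module.finrank k (MH k m M) := by
  have := B3_fd (k := k) (m := m) M
  have h1 := ((Ideal.Quotient.mkₐ k J).toLinearMap.domRestrict (MH k m M)).finrank_range_add_finrank_ker
  rw [LinearMap.range_domRestrict] at h1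
  have h2 : Module.finrank k (LinearMap.ker ((Ideal.Quotient.mkₐ k J).toLinearMap.domRestrict (MH k m M))) =
      Module.finrank k (JM J M) := by
    have h3 : (LinearMap.ker ((Ideal.Quotient.mkₐ k J).toLinearMap.domRestrict (MH k m M))).map
        (MH k m M).subtype = JM J M := by
      ext f
      constructor
      · rintro ⟨⟨g, hg⟩, hg1, rfl⟩
        exact ⟨hg, Ideal.Quotient.eq_zero_iff_mem.1 hg1⟩
      · rintro ⟨hg, hg1⟩
        exact ⟨⟨f, hg⟩, Ideal.Quotient.eq_zero_iff_mem.2 hg1, rfl⟩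
    rw [← h3]
    exact (LinearEquiv.finrank_eq (Submodule.equivMapOfInjective _ (Submodule.injective_subtype _) _))
  rw [← h2]
  exact h1

/-- The colon sequence. -/
theorem Q0_colon {J : Ideal (MvPolynomial (Fin q × Fin (m + 1)) k)} (hJ : HomI J) (z : Fin q × Fin (m + 1))
    (M : Fin q → ℕ) :
    hf J (M + Pi.single z.1 1) =
      hf (Submodule.colon J {(X z : MvPolynomial (Fin q × Fin (m + 1)) k)}) M +
        hf (J ⊔ Ideal.span {X z}) (M + Pi.single z.1 1) := by
  have i1 := B3_fd (k := k) (m := m) M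
  have i2 := B3_fd (k := k) (m := m) (M + Pi.single z.1 1)
  obtain ⟨x, hx⟩ : ∃ x : MvPolynomial (Fin q × Fin (m + 1)) k →ₗ[k] MvPolynomial (Fin q × Fin (m + 1)) k,
      x = LinearMap.mulLeft k (X z) := ⟨_, rfl⟩
  have hxa : ∀ f, x f = X z * f := fun f => by rw [hx]; rfl
  have hinj : Function.Injective x := by
    intro a b hab
    rw [hxa, hxa] at hab
    exact mul_left_cancel₀ (X_ne_zero z) hab
  have hfr : ∀ V : Submodule k (MvPolynomial (Fin q × Fin (m + 1)) k),
      Module.finrank k (V.map x) = Module.finrank k V := fun V =>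
    (LinearEquiv.finrank_eq (Submodule.equivMapOfInjective x hinj V)).symm
  have e1 : JM (J ⊔ Ideal.span {X z}) (M + Pi.single z.1 1) =
      JM J (M + Pi.single z.1 1) ⊔ (MH k m M).map x := by
    ext f
    constructor
    · rintro ⟨h1, h2⟩
      obtain ⟨a, ha, b, hb, rfl⟩ := Submodule.mem_sup.1 h2
      obtain ⟨c, rfl⟩ := Ideal.mem_span_singleton'.1 hb
      have h3 : cmp (M + Pi.single z.1 1) (a + c * X z) = a + c * X z := cmp_self h1
      rw [← h3, map_add, mul_comm c, cmp_X_mul]
      refine Submodule.add_mem_sup ⟨cmp_mem _ _, hJ a ha _⟩ ⟨cmp M c, cmp_mem _ _, hxa _⟩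
    · intro h
      obtain ⟨a, ⟨ha1, ha2⟩, b, ⟨c, hc, rfl⟩, rfl⟩ := Submodule.mem_sup.1 h
      refine ⟨Submodule.add_mem _ ha1 ?_, Ideal.add_mem _ (Ideal.mem_sup_left ha2) (Ideal.mem_sup_right ?_)⟩
      · rw [hxa, mul_comm]
        exact B3_mul hc (X_mem_MH z)
      · rw [hxa]
        exact Ideal.mul_mem_right _ _ (Ideal.mem_span_singleton_self _)
  have e2 : JM J (M + Pi.single z.1 1) ⊓ (MH k m M).map x =
      (JM (Submodule.colon J {(X z : MvPolynomial (Fin q × Fin (m + 1)) k)}) M).map x := by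
    ext f
    constructor
    · rintro ⟨⟨h1, h2⟩, ⟨c, hc, rfl⟩⟩
      refine ⟨c, ⟨hc, mem_cl.2 ?_⟩, rfl⟩
      rw [← hxa]
      exact h2
    · rintro ⟨c, ⟨hc, hc2⟩, rfl⟩
      refine ⟨⟨?_, ?_⟩, ⟨c, hc, rfl⟩⟩
      · rw [hxa, mul_comm]
        exact B3_mul hc (X_mem_MH z)
      · rw [hxa]
        exact mem_cl.1 hc2
  have i3 : FiniteDimensional k (JM J (M + Pi.single z.1 1)) := Submodule.finiteDimensional_of_le inf_le_left
  have i4 : FiniteDimensional k ((MH k m M).map x) := Module.Finite.map _ _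
  have h1 := Submodule.finrank_sup_add_finrank_inf_eq (JM J (M + Pi.single z.1 1)) ((MH k m M).map x)
  rw [← e1, e2, hfr, hfr] at h1
  have h2 := hf_add J (M + Pi.single z.1 1)
  have h3 := hf_add (Submodule.colon J {(X z : MvPolynomial (Fin q × Fin (m + 1)) k)}) M
  have h4 := hf_add (J ⊔ Ideal.span {X z}) (M + Pi.single z.1 1)
  omega

end UTQ
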