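import Mathlib.Algebra.Group.ForwardDiff
import Pool.Agent.Lib.MP_17a322_ntTQ.Q0
import Pool.Agent.Lib.MP_17a322_ntTA.H1

/-!
Hilbert functions are eventually polynomials in every direction, and convex for prime ideals.
-/

set_option autoImplicit false

universe u

namespace UTQ

open MvPolynomial UTA

variable {k : Type u} [Field k] {q m : ℕ}

theorem hf_eq_zero {J : Ideal (MvPolynomial (Fin q × Fin (m + 1)) k)} {i : Fin q}
    (h : ∀ t, (X (i, t) : MvPolynomial (Fin q × Fin (m + 1)) k) ∈ J) {M : Fin q → ℕ} (hM : 1 ≤ M i) :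
    hf J M = 0 := by
  have h1 : (MH k m M).map (Ideal.Quotient.mkₐ k J).toLinearMap = ⊥ := by
    rw [eq_bot_iff]
    rintro _ ⟨f, hf, rfl⟩
    have h2 : f ∈ J := by
      rw [← support_sum_monomial_coeff f]
      refine Ideal.sum_mem _ fun μ hμ => ?_
      have h3 := hf μ hμ i
      obtain ⟨l, hl⟩ : ∃ l, μ (i, l) ≠ 0 := by
        by_contra hc
        push Not at hc
        rw [Finset.sum_eq_zero fun l _ => hc l] at h3
        omega
      have h4 : monomial μ (coeff μ f) = monomial (μ - Finsupp.single (i, l) 1) (coeff μ f) * X (i, l) := by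
        rw [X, monomial_mul, mul_one, tsub_add_cancel_of_le]
        rw [Finsupp.single_le_iff]
        exact Nat.one_le_iff_ne_zero.2 hl
      rw [h4]
      exact Ideal.mul_mem_left _ _ (h l)
    exact Ideal.Quotient.eq_zero_iff_mem.2 h2
  rw [hf, h1]
  exact finrank_bot k _

/-- The function `t ↦ hf J (M + t e_i)`. -/
noncomputable def fn (J : Ideal (MvPolynomial (Fin q × Fin (m + 1)) k)) (i : Fin q) (M : Fin q → ℕ) : ℕ → ℤ :=
  fun t => (hf J (M + t • Pi.single i 1) : ℤ)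

theorem fn_apply (J : Ideal (MvPolynomial (Fin q × Fin (m + 1)) k)) (i : Fin q) (M : Fin q → ℕ) (t : ℕ) :
    fn J i M t = (hf J (M + t • Pi.single i 1) : ℤ) := rfl

theorem iter_zero (D : ℕ) : (fwdDiff (1 : ℕ))^[D] (0 : ℕ → ℤ) = 0 := by
  rw [← fwdDiff_aux.coe_fwdDiffₗ_pow]
  exact map_zero _

theorem iter_add (D : ℕ) (f g : ℕ → ℤ) : (fwdDiff (1 : ℕ))^[D] (f + g) =
    (fwdDiff (1 : ℕ))^[D] f + (fwdDiff (1 : ℕ))^[D] g := by
  rw [← fwdDiff_aux.coe_fwdDiffₗ_pow]
  exact map_add _ _ _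

theorem iter_le {D D' : ℕ} (h : D ≤ D') {f : ℕ → ℤ} (hf : (fwdDiff (1 : ℕ))^[D] f = 0) :
    (fwdDiff (1 : ℕ))^[D'] f = 0 := by
  obtain ⟨c, rfl⟩ : ∃ c, D' = c + D := ⟨D' - D, (Nat.sub_add_cancel h).symm⟩
  rw [Function.iterate_add_apply, hf, iter_zero]

/-- The Hilbert function is a polynomial and nondecreasing in direction `i` for all large multidegrees. -/
def Ev (i : Fin q) (J : Ideal (MvPolynomial (Fin q × Fin (m + 1)) k)) : Prop :=
  ∃ D M₀ : ℕ, ∀ M : Fin q → ℕ, (∀ l, M₀ ≤ M l) →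
    (fwdDiff (1 : ℕ))^[D] (fn J i M) = 0 ∧ hf J M ≤ hf J (M + Pi.single i 1)

theorem single_le {a : Fin q} (l : Fin q) : (Pi.single a 1 : Fin q → ℕ) l ≤ 1 := by
  by_cases hl : l = a
  · rw [hl, Pi.single_eq_same]
  · rw [Pi.single_eq_of_ne hl]
    exact Nat.zero_le _

theorem exists_sub {a : Fin q} {c : ℕ} {M : Fin q → ℕ} (hM : ∀ l, c + 1 ≤ M l) :
    ∃ M' : Fin q → ℕ, (∀ l, c ≤ M' l) ∧ M = M' + Pi.single a 1 := by
  have h3 : Pi.single a 1 ≤ M := fun l => (single_le l).trans ((Nat.le_add_left 1 c).trans (hM l))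
  refine ⟨M - Pi.single a 1, fun l => ?_, (tsub_add_cancel_of_le h3).symm⟩
  have h4 := hM l
  have h5 := single_le (a := a) l
  rw [Pi.sub_apply]
  omega

theorem Ev.colon {i : Fin q} {J C E : Ideal (MvPolynomial (Fin q × Fin (m + 1)) k)} (a : Fin q)
    (hq : ∀ M, hf J (M + Pi.single a 1) = hf C M + hf E (M + Pi.single a 1)) (hC : Ev i C) (hE : Ev i E) :
    Ev i J := by
  obtain ⟨D₁, M₁, h1⟩ := hC
  obtain ⟨D₂, M₂, h2⟩ := hE
  refine ⟨max D₁ D₂, max M₁ M₂ + 1, fun M hM => ?_⟩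
  obtain ⟨M', hM', rfl⟩ := exists_sub (a := a) hM
  have h3 := h1 M' fun l => (le_max_left _ _).trans (hM' l)
  have h4 := h2 (M' + Pi.single a 1) fun l => ((le_max_right _ _).trans (hM' l)).trans (Nat.le_add_right _ _)
  have h6 : ∀ N : Fin q → ℕ, M' + Pi.single a 1 + N = (M' + N) + Pi.single a 1 := fun N => by abel
  constructor
  · have h5 : fn J i (M' + Pi.single a 1) = fn C i M' + fn E i (M' + Pi.single a 1) := by
      funext t
      rw [Pi.add_apply, fn_apply, fn_apply, fn_apply, h6, hq]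
      push_cast
      ring
    rw [h5, iter_add, iter_le (le_max_left _ _) h3.1, iter_le (le_max_right _ _) h4.1, add_zero]
  · have h7 := h4.2
    rw [h6] at h7
    rw [h6, hq, hq]
    exact add_le_add h3.2 h7

theorem Ev.reg {i : Fin q} {J E : Ideal (MvPolynomial (Fin q × Fin (m + 1)) k)}
    (hq : ∀ M, hf J (M + Pi.single i 1) = hf J M + hf E (M + Pi.single i 1)) (hE : Ev i E) : Ev i J := by
  obtain ⟨D₂, M₂, h2⟩ := hE
  refine ⟨D₂ + 1, M₂, fun M hM => ⟨?_, ?_⟩⟩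
  · have h3 : fwdDiff (1 : ℕ) (fn J i M) = fn E i (M + Pi.single i 1) := by
      funext s
      have h4 : M + (s + 1) • Pi.single i 1 = (M + s • Pi.single i 1) + Pi.single i 1 := by
        rw [add_smul, one_smul, add_assoc]
      have h5 : M + Pi.single i 1 + s • Pi.single i 1 = (M + s • Pi.single i 1) + Pi.single i 1 := by abel
      rw [fwdDiff, fn_apply, fn_apply, fn_apply, h4, h5, hq]
      push_cast
      ring
    rw [Function.iterate_succ_apply, h3]
    exact (h2 (M + Pi.single i 1) fun l => (hM l).trans (Nat.le_add_right _ _)).1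
  · rw [hq]
    exact Nat.le_add_right _ _

theorem Ev.zero {i : Fin q} {J : Ideal (MvPolynomial (Fin q × Fin (m + 1)) k)}
    (h : ∀ t, (X (i, t) : MvPolynomial (Fin q × Fin (m + 1)) k) ∈ J) : Ev i J := by
  refine ⟨0, 1, fun M hM => ⟨?_, ?_⟩⟩
  · funext t
    rw [Function.iterate_zero_apply, fn_apply, hf_eq_zero h, Nat.cast_zero]
    · rfl
    · exact (hM i).trans (Nat.le_add_right _ _)
  · rw [hf_eq_zero h (hM i)]
    exact Nat.zero_le _

theorem Q1_step (i : Fin q) (J : Ideal (MvPolynomial (Fin q × Fin (m + 1)) k))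
    (IH : ∀ I : Ideal (MvPolynomial (Fin q × Fin (m + 1)) k), J < I → HomI I → Ev i I) (hJ : HomI J) : Ev i J := by
  have hcol : ∀ z : Fin q × Fin (m + 1), J ≤ Submodule.colon J {(X z : MvPolynomial (Fin q × Fin (m + 1)) k)} :=
    fun z f hf => mem_cl.2 (Ideal.mul_mem_left _ _ hf)
  have hsup : ∀ z : Fin q × Fin (m + 1), (X z : MvPolynomial (Fin q × Fin (m + 1)) k) ∉ J → J < J ⊔ Ideal.span {X z} := by
    intro z hz
    refine lt_of_le_of_ne le_sup_left fun h => hz ?_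
    rw [h]
    exact Ideal.mem_sup_right (Ideal.mem_span_singleton_self _)
  by_cases hA : ∃ z : Fin q × Fin (m + 1), (X z : MvPolynomial (Fin q × Fin (m + 1)) k) ∉ J ∧
      Submodule.colon J {(X z : MvPolynomial (Fin q × Fin (m + 1)) k)} ≠ J
  · obtain ⟨z, hz, hz2⟩ := hA
    exact Ev.colon z.1 (Q0_colon hJ z) (IH _ (lt_of_le_of_ne (hcol z) (Ne.symm hz2)) (hJ.colon z))
      (IH _ (hsup z hz) (hJ.sup (homI_X z)))
  · by_cases hB : ∃ t, (X (i, t) : MvPolynomial (Fin q × Fin (m + 1)) k) ∉ J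
    · obtain ⟨t, ht⟩ := hB
      have h0 : Submodule.colon J {(X (i, t) : MvPolynomial (Fin q × Fin (m + 1)) k)} = J := by
        by_contra hc
        exact hA ⟨(i, t), ht, hc⟩
      refine Ev.reg (fun M => ?_) (IH _ (hsup (i, t) ht) (hJ.sup (homI_X (i, t))))
      have h3 := Q0_colon hJ (i, t) M
      rw [h0] at h3
      exact h3
    · exact Ev.zero fun t => by_contra fun hc => hB ⟨t, hc⟩

theorem Q1_gen (i : Fin q) (J : Ideal (MvPolynomial (Fin q × Fin (m + 1)) k)) : HomI J → Ev i J := by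
  refine WellFoundedGT.induction (motive := fun J : Ideal (MvPolynomial (Fin q × Fin (m + 1)) k) => HomI J → Ev i J) J ?_
  intro J IH hJ
  exact Q1_step i J (fun I hI h => IH I hI h) hJ

theorem Q1_poly {κ : ℕ} {h : Fin κ → MvPolynomial (Fin q × Fin (m + 1)) k} (hh : ∀ j, ∃ d, h j ∈ MH k m d)
    (hp : (Ik h).IsPrime) (h0 : ∀ i, X (i, 0) ∉ Ik h) :
    ∃ D M₀ : ℕ, ∀ (i : Fin q) (M : Fin q → ℕ), (∀ l, M₀ ≤ M l) →
      (∀ t : ℕ, (fwdDiff 1)^[D] (fun t : ℕ => (hf (Ik h) (M + t • Pi.single i 1) : ℤ)) t = 0) ∧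
        2 * hf (Ik h) (M + Pi.single i 1) ≤ hf (Ik h) M + hf (Ik h) (M + 2 • Pi.single i 1) := by
  classical
  have hI : HomI (Ik h) := homI_span (by rintro _ ⟨j, rfl⟩; exact hh j)
  have h1 := fun i => Q1_gen i (Ik h) hI
  have h2 := fun i => Q1_gen i (Ik h ⊔ Ideal.span {X (i, 0)}) (hI.sup (homI_X (i, 0)))
  choose D₁ M₁ h1 using h1
  choose D₂ M₂ h2 using h2
  refine ⟨∑ i, D₁ i, ∑ i, (M₁ i + M₂ i), fun i M hM => ?_⟩
  have hD : D₁ i ≤ ∑ i, D₁ i := Finset.single_le_sum (f := D₁) (fun _ _ => Nat.zero_le _) (Finset.mem_univ i)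
  have hM' : M₁ i + M₂ i ≤ ∑ i, (M₁ i + M₂ i) :=
    Finset.single_le_sum (f := fun i => M₁ i + M₂ i) (fun _ _ => Nat.zero_le _) (Finset.mem_univ i)
  constructor
  · have h3 := iter_le hD (h1 i M fun l => (by have := hM l; omega)).1
    intro t
    exact congrFun h3 t
  · have h3 := (h2 i (M + Pi.single i 1) fun l => by
      have := hM l
      rw [Pi.add_apply]
      omega).2
    have h4 := H1_quot hh hp i (h0 i) M
    have h5 := H1_quot hh hp i (h0 i) (M + Pi.single i 1)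
    have h6 : M + 2 • Pi.single i 1 = M + Pi.single i 1 + Pi.single i 1 := by rw [two_smul, add_assoc]
    rw [h6]
    omega

end UTQ
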