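import Mathlib

/-! Leaf Q2: the iterated differences of a numerical polynomial of degree `n`. -/

set_option autoImplicit false

namespace UTQ

open Polynomial Finset Filter

/-- A function with vanishing `D`-th difference is a polynomial. -/
theorem Q2_poly {D : ℕ} {f : ℕ → ℤ} (h0 : ∀ t, (fwdDiff 1)^[D] f t = 0) :
    ∃ P : ℝ[X], ∀ t : ℕ, P.eval (t : ℝ) = f t := by
  have hz : ∀ k, D ≤ k → (fwdDiff 1)^[k] f 0 = 0 := by
    intro k hk
    obtain ⟨j, rfl⟩ := Nat.exists_eq_add_of_le' hk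
    have h1 : (fwdDiff 1)^[D] f = 0 := funext h0
    rw [Function.iterate_add_apply, h1]
    have h2 : ∀ j : ℕ, (fwdDiff (1 : ℕ))^[j] (0 : ℕ → ℤ) = 0 := by
      intro j
      induction j with
      | zero => rfl
      | succ j ih =>
        rw [Function.iterate_succ_apply', ih]
        funext x
        simp [fwdDiff]
    rw [h2]
    rfl
  refine ⟨∑ k ∈ range D, Polynomial.C (((fwdDiff 1)^[k] f 0 : ℤ) / (k.factorial : ℝ)) * descPochhammer ℝ k, fun t => ?_⟩
  have h3 := shift_eq_sum_fwdDiff_iter (1 : ℕ) f t 0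
  have h4 : f t = ∑ k ∈ range (t + 1), (t.choose k : ℤ) * (fwdDiff 1)^[k] f 0 := by
    have h5 : f (0 + t • 1) = f t := by
      congr 1
      simp
    rw [← h5, h3]
    exact Finset.sum_congr rfl fun k _ => by rw [nsmul_eq_mul]
  have h6 : ∑ k ∈ range (t + 1), (t.choose k : ℤ) * (fwdDiff 1)^[k] f 0 =
      ∑ k ∈ range D, (t.choose k : ℤ) * (fwdDiff 1)^[k] f 0 := by
    have h7 : ∑ k ∈ range (t + 1), (t.choose k : ℤ) * (fwdDiff 1)^[k] f 0 =
        ∑ k ∈ range (t + 1 + D), (t.choose k : ℤ) * (fwdDiff 1)^[k] f 0 := by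
      refine Finset.sum_subset (fun x hx => ?_) fun k _ hk => ?_
      · rw [mem_range] at hx ⊢
        omega
      · rw [mem_range, not_lt] at hk
        rw [Nat.choose_eq_zero_of_lt (by omega)]
        simp
    have h8 : ∑ k ∈ range D, (t.choose k : ℤ) * (fwdDiff 1)^[k] f 0 =
        ∑ k ∈ range (t + 1 + D), (t.choose k : ℤ) * (fwdDiff 1)^[k] f 0 := by
      refine Finset.sum_subset (fun x hx => ?_) fun k _ hk => ?_
      · rw [mem_range] at hx ⊢
        omega
      · rw [mem_range, not_lt] at hk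
        rw [hz k hk, mul_zero]
    rw [h7, h8]
  rw [h4, h6, eval_finsetSum]
  push_cast
  refine Finset.sum_congr rfl fun k _ => ?_
  rw [eval_mul, eval_C, Nat.cast_choose_eq_descPochhammer_div]
  ring

/-- The `n`-th difference of a polynomial of degree `n`. -/
theorem Q2_diff {n : ℕ} {P : ℝ[X]} (hP : P.natDegree = n) {s : ℕ} (hs : s ≠ 0) (y : ℕ) :
    ∑ l ∈ range (n + 1), ((-1 : ℝ) ^ (n - l) * n.choose l) * P.eval ((y + l * s : ℕ) : ℝ) =
      P.leadingCoeff * (s : ℝ) ^ n * n.factorial := by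
  have hs' : (s : ℝ) ≠ 0 := Nat.cast_ne_zero.2 hs
  obtain ⟨Q, hQ⟩ : ∃ Q : ℝ[X], Q = P.comp (Polynomial.C (s : ℝ) * X + Polynomial.C (y : ℝ)) := ⟨_, rfl⟩
  have h1 : Q.natDegree = n := by
    rw [hQ, natDegree_comp, natDegree_linear hs', mul_one, hP]
  have h2 : Q.leadingCoeff = P.leadingCoeff * (s : ℝ) ^ n := by
    rw [hQ, leadingCoeff_comp (by rw [natDegree_linear hs']; exact one_ne_zero), leadingCoeff_linear hs', hP]
  have h3 := congrFun (Polynomial.fwdDiff_iter_degree_eq_factorial Q) 0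
  rw [h1, fwdDiff_iter_eq_sum_shift, h2] at h3
  have h4 : ∀ l : ℕ, Q.eval (0 + l • (1 : ℝ)) = P.eval ((y + l * s : ℕ) : ℝ) := by
    intro l
    rw [hQ, eval_comp]
    congr 1
    simp
    ring
  simp only [h4] at h3
  have h5 : ∑ l ∈ range (n + 1), ((-1 : ℝ) ^ (n - l) * n.choose l) * P.eval ((y + l * s : ℕ) : ℝ) =
      ∑ l ∈ range (n + 1), ((-1 : ℤ) ^ (n - l) * n.choose l) • P.eval ((y + l * s : ℕ) : ℝ) := by
    refine Finset.sum_congr rfl fun l _ => ?_
    rw [zsmul_eq_mul]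
    push_cast
    ring
  rw [h5, h3]
  simp

/-- **Q2.** A function `f : ℕ → ℤ` with vanishing `D`-th difference and `t ^ n ≤ n! f t ≤ C (t + 1) ^ n` has `n`-th
differences with step `s` at least `s ^ n`. -/
theorem Q2 {n D C : ℕ} {f : ℕ → ℤ} (h0 : ∀ t, (fwdDiff 1)^[D] f t = 0)
    (h1 : ∀ t : ℕ, (t : ℤ) ^ n ≤ n.factorial * f t) (h2 : ∀ t : ℕ, f t ≤ C * (t + 1) ^ n) (s y : ℕ) :
    (s : ℤ) ^ n ≤ ∑ l ∈ range (n + 1), (-1) ^ (n - l) * n.choose l * f (y + l * s) := by
  obtain ⟨P, hP⟩ := Q2_poly h0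
  have hn0 : (0 : ℝ) < n.factorial := Nat.cast_pos.2 n.factorial_pos
  have h1' : ∀ t : ℕ, (t : ℝ) ^ n ≤ n.factorial * P.eval (t : ℝ) := by
    intro t
    rw [hP]
    exact_mod_cast h1 t
  have h2' : ∀ t : ℕ, P.eval (t : ℝ) ≤ C * ((t : ℝ) + 1) ^ n := by
    intro t
    rw [hP]
    exact_mod_cast h2 t
  have hpos : ∀ t : ℕ, 1 ≤ t → 0 < P.eval (t : ℝ) := by
    intro t ht
    have h3 : (0 : ℝ) < (t : ℝ) ^ n := pow_pos (by exact_mod_cast ht) n
    have h4 := h3.trans_le (h1' t)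
    exact (mul_pos_iff_of_pos_left hn0).1 h4
  have hP0 : P ≠ 0 := by
    rintro rfl
    have h3 := hpos 1 le_rfl
    simp at h3
  have hcast : Tendsto (fun t : ℕ => (t : ℝ)) atTop atTop := tendsto_natCast_atTop_atTop
  have hXn : (X ^ n : ℝ[X]).degree = n := degree_X_pow n
  -- the degree is at most `n`
  have hle : P.degree ≤ n := by
    by_contra hlt
    rw [not_le] at hlt
    have hQ : (Polynomial.C (C : ℝ) * (X + 1) ^ n : ℝ[X]).degree < P.degree := by
      refine lt_of_le_of_lt ?_ hlt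
      have h3 : ((X + 1 : ℝ[X]) ^ n).degree = n := by
        rw [degree_pow]
        have h4 : (X + 1 : ℝ[X]).degree = 1 := by
          have h5 := degree_X_add_C (1 : ℝ)
          rwa [Polynomial.C_1] at h5
        rw [h4]
        simp
      refine (degree_mul_le _ _).trans ?_
      rw [h3]
      calc (Polynomial.C (C : ℝ)).degree + (n : WithBot ℕ) ≤ 0 + (n : WithBot ℕ) := add_le_add degree_C_le le_rfl
        _ = n := zero_add _
    have h3 := (Polynomial.div_tendsto_atTop_zero_of_degree_lt _ _ hQ).comp hcast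
    have h4 : ∀ᶠ t : ℕ in atTop, (1 : ℝ) ≤
        ((fun x : ℝ => (Polynomial.C (C : ℝ) * (X + 1) ^ n : ℝ[X]).eval x / P.eval x) ∘ fun t : ℕ => (t : ℝ)) t := by
      filter_upwards [eventually_ge_atTop 1] with t ht
      show (1 : ℝ) ≤ (Polynomial.C (C : ℝ) * (X + 1) ^ n : ℝ[X]).eval (t : ℝ) / P.eval (t : ℝ)
      rw [le_div_iff₀ (hpos t ht), one_mul]
      simpa using h2' t
    have h5 := ge_of_tendsto h3 h4
    linarith
  have hge : (n : WithBot ℕ) ≤ P.degree := by
    by_contra hlt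
    rw [not_le] at hlt
    rw [← hXn] at hlt
    have h3 := (Polynomial.div_tendsto_atTop_zero_of_degree_lt _ _ hlt).comp hcast
    have h4 : ∀ᶠ t : ℕ in atTop, (1 / n.factorial : ℝ) ≤
        ((fun x : ℝ => P.eval x / (X ^ n : ℝ[X]).eval x) ∘ fun t : ℕ => (t : ℝ)) t := by
      filter_upwards [eventually_ge_atTop 1] with t ht
      show (1 / n.factorial : ℝ) ≤ P.eval (t : ℝ) / (X ^ n : ℝ[X]).eval (t : ℝ)
      have h5 : (0 : ℝ) < (t : ℝ) ^ n := pow_pos (by exact_mod_cast ht) n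
      rw [eval_pow, eval_X, div_le_div_iff₀ hn0 h5, one_mul, mul_comm]
      exact h1' t
    have h5 := ge_of_tendsto h3 h4
    have h6 : (0 : ℝ) < 1 / n.factorial := by positivity
    linarith
  have hdeg : P.degree = n := le_antisymm hle hge
  have hnat : P.natDegree = n := natDegree_eq_of_degree_eq_some hdeg
  have hlc : 1 ≤ P.leadingCoeff * n.factorial := by
    have h3 := (Polynomial.div_tendsto_atTop_leadingCoeff_div_of_degree_eq _ _ (hdeg.trans hXn.symm)).comp hcast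
    have h4 : ∀ᶠ t : ℕ in atTop, (1 / n.factorial : ℝ) ≤
        ((fun x : ℝ => P.eval x / (X ^ n : ℝ[X]).eval x) ∘ fun t : ℕ => (t : ℝ)) t := by
      filter_upwards [eventually_ge_atTop 1] with t ht
      show (1 / n.factorial : ℝ) ≤ P.eval (t : ℝ) / (X ^ n : ℝ[X]).eval (t : ℝ)
      have h5 : (0 : ℝ) < (t : ℝ) ^ n := pow_pos (by exact_mod_cast ht) n
      rw [eval_pow, eval_X, div_le_div_iff₀ hn0 h5, one_mul, mul_comm]
      exact h1' t
    have h5 := ge_of_tendsto h3 h4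
    rw [leadingCoeff_X_pow, div_one, div_le_iff₀ hn0] at h5
    exact h5
  rcases Nat.eq_zero_or_pos s with rfl | hs
  · rcases Nat.eq_zero_or_pos n with rfl | hn
    · have h3 := h1 y
      simp at h3 ⊢
      exact h3
    · have h4 : ∑ l ∈ range (n + 1), (-1 : ℤ) ^ (n - l) * n.choose l * f (y + l * 0) = 0 := by
        have h5 : ∑ l ∈ range (n + 1), (-1 : ℤ) ^ (n - l) * n.choose l * f (y + l * 0) =
            (∑ l ∈ range (n + 1), (1 : ℤ) ^ l * (-1 : ℤ) ^ (n - l) * n.choose l) * f y := by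
          rw [Finset.sum_mul]
          refine Finset.sum_congr rfl fun l _ => ?_
          rw [mul_zero, add_zero, one_pow, one_mul]
        rw [h5, ← add_pow]
        have h6 : ((1 : ℤ) + -1) ^ n = 0 := by
          rw [add_neg_cancel, zero_pow hn.ne']
        rw [h6, zero_mul]
      rw [h4, Nat.cast_zero, zero_pow hn.ne']
  · have h3 := Q2_diff hnat hs.ne' y
    have h4 : ((∑ l ∈ range (n + 1), (-1) ^ (n - l) * n.choose l * f (y + l * s) : ℤ) : ℝ) =
        P.leadingCoeff * (s : ℝ) ^ n * n.factorial := by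
      rw [← h3]
      push_cast
      refine Finset.sum_congr rfl fun l _ => ?_
      have h5 := hP (y + l * s)
      push_cast at h5
      rw [h5]
    have h5 : ((s : ℤ) ^ n : ℝ) ≤ ((∑ l ∈ range (n + 1), (-1) ^ (n - l) * n.choose l * f (y + l * s) : ℤ) : ℝ) := by
      rw [h4]
      have h6 : (0 : ℝ) ≤ (s : ℝ) ^ n := by positivity
      have h7 := mul_le_mul_of_nonneg_right hlc h6
      push_cast
      nlinarith
    exact_mod_cast h5

end UTQ
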